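import Pool.Agent.Helper95.BG.Goals
import Pool.Agent.Helper78.Mpc.MMain

/-!
# MP_c578c8_lc, project BG, packet ASY: asymptotics
-/

namespace Pool.Agent.Helper32.BG.PkASY

open Pool.Agent.Helper65.LinSpace Pool.Agent.Helper78 Pool.Agent.Helper78.Mpc
  Pool.Agent.Helper78.Xor Pool.Agent.Helper95.BG Finset Filter

theorem bS_le (n : ℕ) : bS n ≤ SS n := Nat.sqrt_le_self _

theorem SS_le (n : ℕ) : SS n ≤ n := Nat.div_le_self _ _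

theorem RR_le_LW (n : ℕ) : RR n ≤ LW n := by
  unfold RR LW
  refine Nat.div_le_div_left ?_ (ll_pos n)
  exact Nat.le_mul_of_pos_left _ (Nat.mul_pos (Nat.mul_pos (ll_pos n) (ll_pos n)) (ll_pos n))

theorem mS_eq (n : ℕ) : mS n = bS n * SS n := rfl

theorem part1 (K : ℕ) : ∀ᶠ n : ℕ in atTop, K ≤ ll n ∧ 0 < bS n ∧ mS n < 2 ^ (2 * ll n) ∧
    mS n / bS n < 2 ^ ll n ∧ K + LW n + K * (n + 1) ≤ 2 ^ (2 * ll n) := by
  filter_upwards [ev_ll_ge K, ev_ll_cube 1, eventually_ge_atTop (2 * K + 2)] with n h1 h2 h3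
  have hl := lt_two_pow_ll n
  have hp := ll_pos n
  have h4 : 0 < SS n := by
    unfold SS
    exact Nat.div_pos (by omega) (Nat.mul_pos (Nat.mul_pos hp hp) hp)
  have h5 : 0 < bS n := Nat.sqrt_pos.2 h4
  have e : 2 ^ (2 * ll n) = 2 ^ ll n * 2 ^ ll n := by rw [two_mul, pow_add]
  have h6 := bS_le n
  have h7 := SS_le n
  refine ⟨h1, h5, ?_, ?_, ?_⟩
  · rw [e, mS_eq]
    exact Nat.mul_lt_mul'' (by omega) (by omega)
  · rw [mS_eq, Nat.mul_div_cancel_left _ h5]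
    omega
  · have h8 : (n + 1) * (n + 1) ≤ 2 ^ (2 * ll n) := by
      rw [e]
      exact Nat.mul_le_mul hl hl
    have h9 : LW n ≤ n := Nat.div_le_self _ _
    refine le_trans ?_ h8
    nlinarith [Nat.mul_le_mul_right (n + 1) (show K + 1 ≤ n by omega)]

/-- powers of `u + 1`, where `u ≤ K (n + 1)` -/
theorem pow_le (a b : ℝ) (K n u : ℕ) (hab : a ≤ b) (hb0 : 0 ≤ b) (hb2 : b ≤ 2)
    (hu : u ≤ K * (n + 1)) :
    ((u : ℝ) + 1) ^ a ≤ ((K : ℝ) + 1) ^ 2 * ((n : ℝ) + 1) ^ b := by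
  have hu0 : (0 : ℝ) ≤ u := Nat.cast_nonneg u
  have hn0 : (0 : ℝ) ≤ n := Nat.cast_nonneg n
  have hK0 : (0 : ℝ) ≤ K := Nat.cast_nonneg K
  have h1 : (u : ℝ) ≤ K * (n + 1) := by exact_mod_cast hu
  have h2 : (u : ℝ) + 1 ≤ (K + 1) * (n + 1) := by nlinarith
  calc ((u : ℝ) + 1) ^ a ≤ ((u : ℝ) + 1) ^ b :=
        Real.rpow_le_rpow_of_exponent_le (by linarith) hab
    _ ≤ (((K : ℝ) + 1) * (n + 1)) ^ b := Real.rpow_le_rpow (by linarith) h2 hb0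
    _ = ((K : ℝ) + 1) ^ b * ((n : ℝ) + 1) ^ b :=
        Real.mul_rpow (by linarith) (by linarith)
    _ ≤ ((K : ℝ) + 1) ^ 2 * ((n : ℝ) + 1) ^ b := by
        refine mul_le_mul_of_nonneg_right ?_ (by positivity)
        calc ((K : ℝ) + 1) ^ b ≤ ((K : ℝ) + 1) ^ (2 : ℝ) :=
              Real.rpow_le_rpow_of_exponent_le (by linarith) hb2
          _ = ((K : ℝ) + 1) ^ 2 := by
              rw [← Real.rpow_natCast]
              norm_num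

theorem part2 (C ε : ℝ) (K : ℕ) (hε : 0 < ε) : ∀ᶠ n : ℕ in atTop, ∀ u : ℕ, u ≤ K * (n + 1) →
    (K : ℝ) * (max (C * ((u : ℝ) + 1) ^ (1 - ε)) 0 + 1) ≤ LW n := by
  obtain ⟨δ, hδ, hδ1, hδ2⟩ : ∃ δ : ℝ, 0 < δ ∧ δ ≤ 1 ∧ δ ≤ ε :=
    ⟨min ε 1, by positivity, min_le_right _ _, min_le_left _ _⟩
  filter_upwards [ev_RR hδ ((K : ℝ) * (|C| * ((K : ℝ) + 1) ^ 2 + 1))] with n h1 u hu
  have hn0 : (0 : ℝ) ≤ n := Nat.cast_nonneg n
  have hK0 : (0 : ℝ) ≤ K := Nat.cast_nonneg K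
  have h2 := pow_le (1 - ε) (1 - δ) K n u (by linarith) (by linarith) (by linarith) hu
  have h3 : (1 : ℝ) ≤ ((n : ℝ) + 1) ^ (1 - δ) := Real.one_le_rpow (by linarith) (by linarith)
  have h4 : max (C * ((u : ℝ) + 1) ^ (1 - ε)) 0 ≤
      |C| * (((K : ℝ) + 1) ^ 2 * ((n : ℝ) + 1) ^ (1 - δ)) := by
    refine max_le ?_ (by positivity)
    calc C * ((u : ℝ) + 1) ^ (1 - ε) ≤ |C| * ((u : ℝ) + 1) ^ (1 - ε) :=
          mul_le_mul_of_nonneg_right (le_abs_self C) (by positivity)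
      _ ≤ _ := mul_le_mul_of_nonneg_left h2 (abs_nonneg C)
  have h5 : (RR n : ℝ) ≤ LW n := by exact_mod_cast RR_le_LW n
  calc (K : ℝ) * (max (C * ((u : ℝ) + 1) ^ (1 - ε)) 0 + 1)
      ≤ K * (|C| * (((K : ℝ) + 1) ^ 2 * ((n : ℝ) + 1) ^ (1 - δ)) + ((n : ℝ) + 1) ^ (1 - δ)) :=
        mul_le_mul_of_nonneg_left (add_le_add h4 h3) hK0
    _ = (K : ℝ) * (|C| * ((K : ℝ) + 1) ^ 2 + 1) * ((n : ℝ) + 1) ^ (1 - δ) := by ring
    _ ≤ RR n := h1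
    _ ≤ LW n := h5

/-- `mS n` is at least `C (n + 1) ^ (3 / 2 - ε)`. -/
theorem ev_mS {ε : ℝ} (hε : 0 < ε) (hε1 : ε ≤ 1) (C : ℝ) : ∀ᶠ n : ℕ in atTop,
    C * ((n : ℝ) + 1) ^ (3 / 2 - ε) ≤ mS n := by
  have hδ : 0 < ε / 3 := by positivity
  filter_upwards [ev_RR hδ 4, ev_le_rpow C (show 0 < ε / 2 by positivity)] with n h1 h2
  have hn0 : (0 : ℝ) < (n : ℝ) + 1 := by positivity
  have hn1 : (1 : ℝ) ≤ (n : ℝ) + 1 := by
    have : (0 : ℝ) ≤ n := Nat.cast_nonneg n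
    linarith
  set z : ℝ := ((n : ℝ) + 1) ^ ((1 - ε / 3) / 2) with hz
  have hz1 : 1 ≤ z := Real.one_le_rpow hn1 (by linarith)
  have hzz : z * z = ((n : ℝ) + 1) ^ (1 - ε / 3) := by
    rw [hz, ← Real.rpow_add hn0]
    congr 1
    ring
  have h3 : 4 * (z * z) ≤ SS n := by
    rw [hzz]
    have : (RR n : ℝ) ≤ SS n := by exact_mod_cast RR_le_SS n
    linarith
  have h4 : (SS n : ℝ) < ((bS n : ℝ) + 1) * ((bS n : ℝ) + 1) := by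
    have : SS n < (bS n + 1) * (bS n + 1) := Nat.lt_succ_sqrt _
    exact_mod_cast this
  have hb0 : (0 : ℝ) ≤ bS n := Nat.cast_nonneg _
  have h5 : z ≤ bS n := by
    by_contra hcon
    push Not at hcon
    nlinarith
  have h6 : z * (z * z) ≤ mS n := by
    rw [mS_eq]
    push_cast
    exact mul_le_mul h5 (by nlinarith) (by positivity) hb0
  have h7 : z * (z * z) = ((n : ℝ) + 1) ^ (ε / 2) * ((n : ℝ) + 1) ^ (3 / 2 - ε) := by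
    rw [hzz, hz, ← Real.rpow_add hn0, ← Real.rpow_add hn0]
    congr 1
    ring
  calc C * ((n : ℝ) + 1) ^ (3 / 2 - ε) ≤
        ((n : ℝ) + 1) ^ (ε / 2) * ((n : ℝ) + 1) ^ (3 / 2 - ε) :=
        mul_le_mul_of_nonneg_right h2 (by positivity)
    _ = z * (z * z) := h7.symm
    _ ≤ mS n := h6

theorem part3 (C ε : ℝ) (K : ℕ) (hε : 0 < ε) : ∀ᶠ n : ℕ in atTop, ∀ u : ℕ, u ≤ K * (n + 1) →
    (n : ℝ) + C * ((u : ℝ) + 1) ^ (3 / 2 - ε) ≤ mS n := by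
  obtain ⟨δ, hδ, hδ1, hδ2⟩ : ∃ δ : ℝ, 0 < δ ∧ δ ≤ 1 / 2 ∧ δ ≤ ε :=
    ⟨min ε (1 / 2), by positivity, min_le_right _ _, min_le_left _ _⟩
  filter_upwards [ev_mS hδ (by linarith) (1 + |C| * ((K : ℝ) + 1) ^ 2)] with n h1 u hu
  have hn0 : (0 : ℝ) ≤ n := Nat.cast_nonneg n
  have h2 := pow_le (3 / 2 - ε) (3 / 2 - δ) K n u (by linarith) (by linarith) (by linarith) hu
  have h3 : (n : ℝ) ≤ ((n : ℝ) + 1) ^ (3 / 2 - δ) := by
    calc (n : ℝ) ≤ (n : ℝ) + 1 := by linarith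
      _ = ((n : ℝ) + 1) ^ (1 : ℝ) := (Real.rpow_one _).symm
      _ ≤ ((n : ℝ) + 1) ^ (3 / 2 - δ) :=
          Real.rpow_le_rpow_of_exponent_le (by linarith) (by linarith)
  calc (n : ℝ) + C * ((u : ℝ) + 1) ^ (3 / 2 - ε)
      ≤ ((n : ℝ) + 1) ^ (3 / 2 - δ) +
        |C| * (((K : ℝ) + 1) ^ 2 * ((n : ℝ) + 1) ^ (3 / 2 - δ)) := by
        refine add_le_add h3 ?_
        calc C * ((u : ℝ) + 1) ^ (3 / 2 - ε) ≤ |C| * ((u : ℝ) + 1) ^ (3 / 2 - ε) :=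
              mul_le_mul_of_nonneg_right (le_abs_self C) (by positivity)
          _ ≤ _ := mul_le_mul_of_nonneg_left h2 (abs_nonneg C)
    _ = (1 + |C| * ((K : ℝ) + 1) ^ 2) * ((n : ℝ) + 1) ^ (3 / 2 - δ) := by ring
    _ ≤ mS n := h1

theorem thm : G_ASY := ⟨part1, part2, part3⟩

end Pool.Agent.Helper32.BG.PkASY
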